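import Mathlib
import Pool.Agent.R833.Ex7b

/-!
# An arrangement of seven lines whose module of derivations has a resolution of another shape
-/

set_option autoImplicit false
set_option linter.unusedSectionVars false

namespace Pool.Agent.Results.MP_ac8f1a_ag.QuadraticSyzygy

open MvPolynomial CategoryTheory Pool.Agent.R833 Pool.Agent.R833.Arr Pool.Agent.R833.Ex7
open Pool.Agent.R833.TM

/-- The projective dimension of the `S`-module `D(A)`. -/
noncomputable def pd {K : Type} [Field K] {l n : ℕ} (A : Fin n → Fin l → K) : WithBot ℕ∞ :=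
  projectiveDimension (ModuleCat.of (MvPolynomial (Fin l) K) (logDer A))

/-- The hypotheses (H) for the arrangement `A` and the derivations `θ_1, …, θ_{l+1}`, where
`g = (g_1, …, g_{l+1})`. -/
structure HypothesesH {K : Type} [Field K] {l n : ℕ} (A : Fin n → Fin l → K)
    (θ : Fin (l + 1) → Derivation K (MvPolynomial (Fin l) K) (MvPolynomial (Fin l) K))
    (g : Fin (l + 1) → MvPolynomial (Fin l) K) : Prop where
  /-- the `θ_i` are logarithmic -/
  mem : ∀ i, θ i ∈ logDer A
  /-- they are homogeneous -/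
  homogeneous : ∀ i, ∃ d, HomogeneousDer (θ i) d
  /-- `(-1)^i det M_i = g_i Q` -/
  minors : IsMinorQuotient A θ g
  /-- `g_{l+1}` is not zero -/
  last_ne_zero : g (Fin.last l) ≠ 0
  /-- `g_1, …, g_l` are nonzero and homogeneous of positive degree -/
  pos : ∀ i : Fin l, g i.castSucc ≠ 0 ∧ PosHomogeneous (g i.castSucc)
  /-- they have no non-trivial common divisor modulo `g_{l+1}` -/
  no_common : ¬ CommonDivisorMod (fun i : Fin l => g i.castSucc) (g (Fin.last l))
  /-- the projective dimension of `D(A)` is one -/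
  pd_eq : pd A = 1

/-- A graded minimal free resolution
`0 → ⨁_{l < i ≤ l + q} S[-d_i-1] → ⨁_{i ≤ l + q} S[-d_i] → D(A) → 0` of the shape in question,
with `p = l + q`: the `φ_i` are the images of the basis of the middle module, and `r_j` is the image
of the basis vector of the left module of degree `d_{l+j} + 1`. -/
structure IsShapeResolution {K : Type} [Field K] {l n : ℕ} (A : Fin n → Fin l → K) (q : ℕ)
    (d : Fin (l + q) → ℕ)
    (φ : Fin (l + q) → Derivation K (MvPolynomial (Fin l) K) (MvPolynomial (Fin l) K))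
    (r : Fin q → Fin (l + q) → MvPolynomial (Fin l) K) : Prop where
  /-- the `φ_i` are homogeneous derivations of degree `d_i` -/
  homogeneous : ∀ i, HomogeneousDer (φ i) (d i)
  /-- they generate `D(A)` -/
  generate : Submodule.span (MvPolynomial (Fin l) K) (Set.range φ) = logDer A
  /-- the coefficients of `r_j` are homogeneous (or zero), of total degree `d_{l+j} + 1` -/
  rel_homogeneous : ∀ j i, r j i = 0 ∨
    ∃ m, m + d i = d (Fin.natAdd l j) + 1 ∧ (r j i).IsHomogeneous m
  /-- the `r_j` are relations -/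
  relation : ∀ j, ∑ i, r j i • φ i = 0
  /-- every relation is a combination of them -/
  relations : ∀ c : Fin (l + q) → MvPolynomial (Fin l) K, ∑ i, c i • φ i = 0 →
    ∃ a : Fin q → MvPolynomial (Fin l) K, c = ∑ j, a j • r j
  /-- they are linearly independent -/
  independent : LinearIndependent (MvPolynomial (Fin l) K) r
  /-- minimality: the matrix has no nonzero constant entries -/
  minimal : ∀ j i, constantCoeff (r j i) = 0

section

variable {K : Type} [Field K]

lemma sum_smul_apply {ι : Type} (s : Finset ι) (c : ι → S3 K) (φ : ι → Der3 K) (x : S3 K) :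
    (∑ i ∈ s, c i • φ i) x = ∑ i ∈ s, c i * φ i x := by
  classical
  induction s using Finset.induction_on with
  | empty => simp
  | insert a s ha ih =>
    rw [Finset.sum_insert ha, Finset.sum_insert ha, Derivation.add_apply, ih,
      Derivation.smul_apply, smul_eq_mul]

/-- component of a product with a homogeneous polynomial -/
lemma component_mul' {a b : S3 K} {δ : ℕ} (D : ℕ) (hb : b.IsHomogeneous δ) :
    homogeneousComponent D (a * b) =
      (if δ ≤ D then homogeneousComponent (D - δ) a else 0) * b := by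
  split_ifs with h
  · obtain ⟨e, rfl⟩ := Nat.exists_eq_add_of_le' h
    rw [component_mul hb, Nat.add_sub_cancel]
  · rw [← gr_coeff, map_mul, gr_of_homogeneous hb, zero_mul, Polynomial.coeff_mul]
    apply Finset.sum_eq_zero
    intro x hx
    rw [Finset.HasAntidiagonal.mem_antidiagonal] at hx
    rw [Polynomial.coeff_monomial, if_neg (by omega), mul_zero]

/-- degrees of the generators -/
def del : Fin 4 → ℕ := ![1, 4, 4, 4]

lemma gen_hom (i : Fin 4) : HomogeneousDer (gen K i) (del i) := by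
  intro k
  fin_cases i <;> fin_cases k
  · change (vf (X 0) (X 1) (X 2) (X 0) : S3 K).IsHomogeneous 1
    rw [vf_0]; exact hom_X 0
  · change (vf (X 0) (X 1) (X 2) (X 1) : S3 K).IsHomogeneous 1
    rw [vf_1]; exact hom_X 1
  · change (vf (X 0) (X 1) (X 2) (X 2) : S3 K).IsHomogeneous 1
    rw [vf_2]; exact hom_X 2
  · change (vf (pP K * pR K) (pP K * pR K) 0 (X 0)).IsHomogeneous 4
    rw [vf_0]; exact pP_hom.mul pR_hom
  · change (vf (pP K * pR K) (pP K * pR K) 0 (X 1)).IsHomogeneous 4
    rw [vf_1]; exact pP_hom.mul pR_hom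
  · change (vf (pP K * pR K) (pP K * pR K) 0 (X 2)).IsHomogeneous 4
    rw [vf_2]; exact isHomogeneous_zero _ _ _
  · change (vf (pP K * pT K) 0 0 (X 0)).IsHomogeneous 4
    rw [vf_0]; exact pP_hom.mul pT_hom
  · change (vf (pP K * pT K) 0 0 (X 1)).IsHomogeneous 4
    rw [vf_1]; exact isHomogeneous_zero _ _ _
  · change (vf (pP K * pT K) 0 0 (X 2)).IsHomogeneous 4
    rw [vf_2]; exact isHomogeneous_zero _ _ _
  · change (vf 0 (pR K * pT K) 0 (X 0)).IsHomogeneous 4
    rw [vf_0]; exact isHomogeneous_zero _ _ _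
  · change (vf 0 (pR K * pT K) 0 (X 1)).IsHomogeneous 4
    rw [vf_1]; exact pR_hom.mul pT_hom
  · change (vf 0 (pR K * pT K) 0 (X 2)).IsHomogeneous 4
    rw [vf_2]; exact isHomogeneous_zero _ _ _

variable [CharZero K]

/-- homogeneous elements are combinations with homogeneous coefficients -/
lemma exists_comb_hom {θ : Der3 K} (hθ : θ ∈ logDer (A7 K)) {D : ℕ} (hD : HomogeneousDer θ D) :
    ∃ c : Fin 4 → S3 K, θ = ∑ i, c i • gen K i ∧
      ∀ i, c i = 0 ∨ (del i ≤ D ∧ (c i).IsHomogeneous (D - del i)) := by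
  obtain ⟨c, hc⟩ := exists_comb hθ
  refine ⟨fun i => if del i ≤ D then homogeneousComponent (D - del i) (c i) else 0, ?_, ?_⟩
  · apply derivation_ext
    intro k
    rw [sum_smul_apply]
    have h1 : homogeneousComponent D (θ (X k)) = θ (X k) := by
      have := homogeneousComponent_of_mem (m := D) (n := D) (hD k)
      rw [this, if_pos rfl]
    rw [← h1, hc, sum_smul_apply, map_sum]
    exact Finset.sum_congr rfl fun i _ => component_mul' D (gen_hom i k)
  · intro i
    by_cases h : del i ≤ D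
    · right
      refine ⟨h, ?_⟩
      simp only [if_pos h]
      exact homogeneousComponent_isHomogeneous _ _
    · left
      simp only [if_neg h]

/-- there is no resolution of the shape in question -/
lemma no_shape (q : ℕ) (d : Fin (3 + q) → ℕ) (φ : Fin (3 + q) → Der3 K)
    (r : Fin q → Fin (3 + q) → S3 K) : ¬ IsShapeResolution (A7 K) q d φ r := by
  intro H
  have hφ : ∀ j, φ j ∈ logDer (A7 K) := by
    intro j
    rw [← H.generate]
    exact Submodule.subset_span ⟨j, rfl⟩
  choose B hB hBh using fun j => exists_comb_hom (hφ j) (H.homogeneous j)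
  have hgen : ∀ i, ∃ c : Fin (3 + q) → S3 K, ∑ j, c j • φ j = gen K i := by
    intro i
    have := gen_mem (K := K) i
    rw [← H.generate] at this
    exact (Submodule.mem_span_range_iff_exists_fun _).1 this
  choose Cm hC using hgen
  let Bm : Matrix (Fin (3 + q)) (Fin 4) (S3 K) := Matrix.of B
  let CM : Matrix (Fin 4) (Fin (3 + q)) (S3 K) := Matrix.of Cm
  have hBx : ∀ j k, φ j (X k) = ∑ i, B j i * gen K i (X k) := by
    intro j k
    conv_lhs => rw [hB j]
    rw [sum_smul_apply]
  have hCx : ∀ i k, gen K i (X k) = ∑ j, Cm i j * φ j (X k) := by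
    intro i k
    conv_lhs => rw [← hC i]
    rw [sum_smul_apply]
  -- constant terms
  have hbc : (Bm.map constantCoeff) * (CM.map constantCoeff) = 1 := by
    have h1 : ∀ j, ∑ k, ((Bm * CM) j k - (1 : Matrix _ _ (S3 K)) j k) • φ k = 0 := by
      intro j
      apply derivation_ext
      intro m
      rw [sum_smul_apply]
      simp only [sub_mul, Finset.sum_sub_distrib]
      have e1 : ∑ k, (Bm * CM) j k * φ k (X m) = φ j (X m) := by
        rw [hBx j m]
        simp only [Matrix.mul_apply, Finset.sum_mul]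
        rw [Finset.sum_comm]
        refine Finset.sum_congr rfl fun i _ => ?_
        rw [hCx i m, Finset.mul_sum]
        exact Finset.sum_congr rfl fun k _ => mul_assoc _ _ _
      have e2 : ∑ k, (1 : Matrix _ _ (S3 K)) j k * φ k (X m) = φ j (X m) := by
        rw [Finset.sum_eq_single j]
        · rw [Matrix.one_apply_eq, one_mul]
        · intro b _ hb
          rw [Matrix.one_apply_ne hb.symm, zero_mul]
        · simp
      rw [e1, e2, sub_self]
      rfl
    rw [← Matrix.map_mul]
    ext1 j k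
    obtain ⟨a, ha⟩ := H.relations _ (h1 j)
    have h2 := congrArg constantCoeff (congrFun ha k)
    rw [map_sub, Finset.sum_apply, map_sum] at h2
    simp only [Pi.smul_apply, smul_eq_mul, map_mul, H.minimal, mul_zero,
      Finset.sum_const_zero] at h2
    rw [Matrix.map_apply, sub_eq_zero.1 h2]
    by_cases hjk : j = k
    · subst hjk
      rw [Matrix.one_apply_eq, Matrix.one_apply_eq, map_one]
    · rw [Matrix.one_apply_ne hjk, Matrix.one_apply_ne hjk, map_zero]
  have hcb : (CM.map constantCoeff) * (Bm.map constantCoeff) = 1 := by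
    have h1 : ∀ i, ∑ k, ((CM * Bm) i k - (1 : Matrix _ _ (S3 K)) i k) • gen K k = 0 := by
      intro i
      apply derivation_ext
      intro m
      rw [sum_smul_apply]
      simp only [sub_mul, Finset.sum_sub_distrib]
      have e1 : ∑ k, (CM * Bm) i k * gen K k (X m) = gen K i (X m) := by
        rw [hCx i m]
        simp only [Matrix.mul_apply, Finset.sum_mul]
        rw [Finset.sum_comm]
        refine Finset.sum_congr rfl fun j _ => ?_
        rw [hBx j m, Finset.mul_sum]
        exact Finset.sum_congr rfl fun k _ => mul_assoc _ _ _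
      have e2 : ∑ k, (1 : Matrix _ _ (S3 K)) i k * gen K k (X m) = gen K i (X m) := by
        rw [Finset.sum_eq_single i]
        · rw [Matrix.one_apply_eq, one_mul]
        · intro b _ hb
          rw [Matrix.one_apply_ne hb.symm, zero_mul]
        · simp
      rw [e1, e2, sub_self]
      rfl
    rw [← Matrix.map_mul]
    ext1 i k
    obtain ⟨a, ha⟩ := rel_eq (h1 i)
    have h2 := congrArg constantCoeff (congrFun ha k)
    rw [map_sub, Pi.smul_apply, smul_eq_mul, map_mul, kap_const, mul_zero] at h2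
    rw [Matrix.map_apply, sub_eq_zero.1 h2]
    by_cases hik : i = k
    · subst hik
      rw [Matrix.one_apply_eq, Matrix.one_apply_eq, map_one]
    · rw [Matrix.one_apply_ne hik, Matrix.one_apply_ne hik, map_zero]
  have hcard := Matrix.square_of_invertible _ _ hbc hcb
  rw [Fintype.card_fin, Fintype.card_fin] at hcard
  obtain rfl : q = 1 := by omega
  -- degrees
  have hdeg : ∀ j, d j = 1 ∨ d j = 4 := by
    intro j
    by_contra hcon
    push Not at hcon
    have h1 := congrFun (congrFun hbc j) j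
    rw [Matrix.mul_apply, Matrix.one_apply_eq] at h1
    have h2 : ∀ i, (Bm.map constantCoeff) j i = 0 := by
      intro i
      change constantCoeff (B j i) = 0
      rcases hBh j i with h | ⟨h3, h4⟩
      · rw [h, map_zero]
      · have h5 : d j - del i ≠ 0 := by
          have : del i = 1 ∨ del i = 4 := by
            fin_cases i
            · exact Or.inl rfl
            · exact Or.inr rfl
            · exact Or.inr rfl
            · exact Or.inr rfl
          omega
        rw [constantCoeff_eq]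
        by_contra hne
        have h6 := h4 hne
        simp at h6
        omega
    rw [Finset.sum_eq_zero (fun i _ => by rw [h2 i, zero_mul])] at h1
    exact zero_ne_one h1
  -- the relation
  have hr := H.relation 0
  have hr2 : ∑ i, (∑ j, r 0 j * B j i) • gen K i = 0 := by
    apply derivation_ext
    intro m
    have h1 : (∑ j, r 0 j • φ j) (X m) = 0 := by rw [hr]; rfl
    rw [sum_smul_apply] at h1
    rw [sum_smul_apply]
    change _ = (0 : S3 K)
    rw [← h1]
    simp only [Finset.sum_mul]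
    rw [Finset.sum_comm]
    refine Finset.sum_congr rfl fun j _ => ?_
    rw [hBx j m, Finset.mul_sum]
    exact Finset.sum_congr rfl fun k _ => mul_assoc _ _ _
  obtain ⟨t, ht⟩ := rel_eq hr2
  have ht1 : ∑ j, r 0 j * B j 1 = t * pT K := congrFun ht 1
  have htz : t = 0 := by
    by_contra hne
    have hd3 := hdeg (Fin.natAdd 3 0)
    have h1 : (t * pT K).IsHomogeneous 1 := by
      rw [← ht1]
      apply IsHomogeneous.sum
      intro j _
      rcases hBh j 1 with h | ⟨h3, h4⟩
      · rw [h, mul_zero]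
        exact isHomogeneous_zero _ _ _
      · rcases H.rel_homogeneous 0 j with h5 | ⟨m, hm, h5⟩
        · rw [h5, zero_mul]
          exact isHomogeneous_zero _ _ _
        · have h6 : del 1 = 4 := rfl
          rw [h6] at h3 h4
          have h7 := h5.mul h4
          have h8 : m + (d j - 4) = 1 := by omega
          rwa [h8] at h7
    have h2 := h1.totalDegree (mul_ne_zero hne pT_ne)
    rw [totalDegree_mul_of_isDomain hne pT_ne, pT_hom.totalDegree pT_ne] at h2
    omega
  have hvec : Matrix.vecMul (r 0) Bm = 0 := by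
    ext1 i
    have := congrFun ht i
    rw [htz, zero_smul] at this
    exact this
  have hdet : (show Matrix (Fin 4) (Fin 4) (S3 K) from Bm).det ≠ 0 := by
    intro h0
    have h1 : (show Matrix (Fin 4) (Fin 4) K from Bm.map constantCoeff).det = 0 := by
      have := RingHom.map_det (constantCoeff (R := K) (σ := Fin 3))
        (show Matrix (Fin 4) (Fin 4) (S3 K) from Bm)
      rw [h0, map_zero] at this
      exact this.symm
    have h2 := congrArg Matrix.det (show (show Matrix (Fin 4) (Fin 4) K from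
      Bm.map constantCoeff) * (show Matrix (Fin 4) (Fin 4) K from CM.map constantCoeff) = 1
      from hbc)
    rw [Matrix.det_mul, h1, zero_mul, Matrix.det_one] at h2
    exact zero_ne_one h2
  exact H.independent.ne_zero 0 (Matrix.eq_zero_of_vecMul_eq_zero hdet hvec)

/-! ### The hypotheses -/

/-- the integer coefficients -/
def M7 : Fin 7 → Fin 3 → ℤ :=
  ![![0, 0, 1], ![1, 0, 0], ![1, 0, -1], ![0, 1, 0], ![0, 1, -1], ![1, -1, -2], ![1, -1, 2]]

lemma A7_eq (i : Fin 7) (j : Fin 3) : A7 K i j = (M7 i j : K) := by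
  fin_cases i <;> fin_cases j <;> simp [A7, M7]

/-- some minor is nonzero -/
def someMinor (u v : Fin 3 → ℤ) : Prop := ∃ j k : Fin 3, u j * v k - u k * v j ≠ 0

instance (u v : Fin 3 → ℤ) : Decidable (someMinor u v) := by unfold someMinor; infer_instance

lemma hyperplane_ne (u v : Fin 3 → ℤ) (h : someMinor u v) :
    hyperplane (fun j => (u j : K)) ≠ hyperplane (fun j => (v j : K)) := by
  obtain ⟨j, k, hjk⟩ := h
  intro heq
  have hne : j ≠ k := by
    rintro rfl
    exact hjk (sub_self _)
  have h1 : (Pi.single j (u k : K) - Pi.single k (u j : K) : Fin 3 → K) ∈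
      hyperplane (fun j => (u j : K)) := by
    rw [mem_hyperplane]
    simp only [Pi.sub_apply, mul_sub, Finset.sum_sub_distrib, Pi.single_apply, mul_ite, mul_zero,
      Finset.sum_ite_eq', Finset.mem_univ, if_true]
    ring
  rw [heq, mem_hyperplane] at h1
  simp only [Pi.sub_apply, mul_sub, Finset.sum_sub_distrib, Pi.single_apply, mul_ite, mul_zero,
      Finset.sum_ite_eq', Finset.mem_univ, if_true] at h1
  apply hjk
  have h3 : ((u j * v k - u k * v j : ℤ) : K) = 0 := by
    push_cast
    linear_combination -h1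
  exact_mod_cast h3

lemma minors7 : ∀ i j : Fin 7, i ≠ j → someMinor (M7 i) (M7 j) := by
  decide +kernel

lemma isArrangement : IsArrangement (A7 K) := by
  have hA : ∀ i, A7 K i = fun j => (M7 i j : K) := fun i => funext fun j => A7_eq i j
  constructor
  · intro i h0
    obtain ⟨i', hi'⟩ := exists_ne i
    obtain ⟨j, k, hjk⟩ := minors7 i i' hi'.symm
    have h1 : ∀ j, M7 i j = 0 := by
      intro j
      have := congrFun h0 j
      rw [A7_eq] at this
      have h2 : ((M7 i j : ℤ) : K) = 0 := this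
      exact_mod_cast h2
    rw [h1, h1] at hjk
    simp at hjk
  · intro i j hij
    by_contra hne
    apply hyperplane_ne (K := K) (M7 i) (M7 j) (minors7 i j hne)
    rw [← hA, ← hA]
    exact hij

/-- the four derivations -/
noncomputable def th (K : Type) [Field K] : Fin 4 → Der3 K :=
  ![vf (X 0) (X 1) (X 2),
    vf (pP K * pR K + X 2 ^ 3 * X 0) (pP K * pR K + X 2 ^ 3 * X 1) (X 2 ^ 3 * X 2),
    vf (pP K * pT K) 0 0, vf 0 (pR K * pT K) 0]

/-- the quotients of the minors -/
noncomputable def gg (K : Type) [Field K] : Fin 4 → S3 K :=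
  ![- (X 2 ^ 3 * pT K), pT K, - pR K, - pP K]

lemma mem_v0 : vf (X 0) (X 1) (X 2) ∈ logDer (A7 K) := gen_mem (K := K) 0

lemma mem_v1 : vf (pP K * pR K) (pP K * pR K) 0 ∈ logDer (A7 K) := gen_mem (K := K) 1

lemma mem_v2 : vf (pP K * pT K) 0 0 ∈ logDer (A7 K) := gen_mem (K := K) 2

lemma mem_v3 : vf 0 (pR K * pT K) 0 ∈ logDer (A7 K) := gen_mem (K := K) 3

lemma vf_add (a b c : S3 K) : vf (a + c * X 0) (b + c * X 1) (c * X 2) =
    vf a b 0 + c • vf (X 0) (X 1) (X 2) := by
  apply der_ext3
  · rw [Derivation.add_apply, Derivation.smul_apply, smul_eq_mul, vf_0, vf_0, vf_0]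
  · rw [Derivation.add_apply, Derivation.smul_apply, smul_eq_mul, vf_1, vf_1, vf_1]
  · rw [Derivation.add_apply, Derivation.smul_apply, smul_eq_mul, vf_2, vf_2, vf_2, zero_add]

lemma mem_v1' : vf (pP K * pR K + X 2 ^ 3 * X 0) (pP K * pR K + X 2 ^ 3 * X 1)
    (X 2 ^ 3 * X 2) ∈ logDer (A7 K) := by
  rw [vf_add]
  exact Submodule.add_mem _ mem_v1 (Submodule.smul_mem _ _ mem_v0)

lemma th_mem (i : Fin 4) : th K i ∈ logDer (A7 K) := by
  fin_cases i
  · exact mem_v0
  · exact mem_v1'
  · exact mem_v2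
  · exact mem_v3

lemma z4_hom (i : Fin 3) : (X 2 ^ 3 * X i : S3 K).IsHomogeneous 4 := by
  have := ((hom_X (K := K) 2).pow 3).mul (hom_X i)
  simpa using this

lemma vf_hom {a b c : S3 K} {n : ℕ} (ha : a.IsHomogeneous n) (hb : b.IsHomogeneous n)
    (hc : c.IsHomogeneous n) : HomogeneousDer (vf a b c) n := by
  intro k
  fin_cases k
  · change (vf a b c (X 0)).IsHomogeneous n
    rwa [vf_0]
  · change (vf a b c (X 1)).IsHomogeneous n
    rwa [vf_1]
  · change (vf a b c (X 2)).IsHomogeneous n
    rwa [vf_2]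

lemma hom_v0 : HomogeneousDer (vf (X 0) (X 1) (X 2) : Der3 K) 1 :=
  vf_hom (hom_X 0) (hom_X 1) (hom_X 2)

lemma hom_v1 : HomogeneousDer (vf (pP K * pR K + X 2 ^ 3 * X 0) (pP K * pR K + X 2 ^ 3 * X 1)
    (X 2 ^ 3 * X 2)) 4 :=
  vf_hom ((pP_hom.mul pR_hom).add (z4_hom 0)) ((pP_hom.mul pR_hom).add (z4_hom 1)) (z4_hom 2)

lemma hom_v2 : HomogeneousDer (vf (pP K * pT K) 0 0) 4 :=
  vf_hom (pP_hom.mul pT_hom) (isHomogeneous_zero _ _ _) (isHomogeneous_zero _ _ _)

lemma hom_v3 : HomogeneousDer (vf 0 (pR K * pT K) 0) 4 :=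
  vf_hom (isHomogeneous_zero _ _ _) (pR_hom.mul pT_hom) (isHomogeneous_zero _ _ _)

lemma th_hom (i : Fin 4) : ∃ d, HomogeneousDer (th K i) d := by
  fin_cases i
  · exact ⟨1, hom_v0⟩
  · exact ⟨4, hom_v1⟩
  · exact ⟨4, hom_v2⟩
  · exact ⟨4, hom_v3⟩

lemma defPoly7 : defPoly (A7 K) = X 2 * pP K * pR K * pT K := by
  unfold defPoly
  simp only [forms]
  rw [Fin.prod_univ_seven]
  simp only [pP, pR, pT]
  change (X 2 * X 0 * (X 0 - X 2) * X 1 * (X 1 - X 2) * (X 0 - X 1 - 2 * X 2) *
    (X 0 - X 1 + 2 * X 2) : S3 K) = _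
  ring

lemma minors_ok : IsMinorQuotient (A7 K) (th K) (gg K) := by
  intro i
  rw [defPoly7, Matrix.det_fin_three]
  have e00 : th K 0 (X 0) = X 0 := vf_0 _ _ _
  have e01 : th K 0 (X 1) = X 1 := vf_1 _ _ _
  have e02 : th K 0 (X 2) = X 2 := vf_2 _ _ _
  have e10 : th K 1 (X 0) = pP K * pR K + X 2 ^ 3 * X 0 := vf_0 _ _ _
  have e11 : th K 1 (X 1) = pP K * pR K + X 2 ^ 3 * X 1 := vf_1 _ _ _
  have e12 : th K 1 (X 2) = X 2 ^ 3 * X 2 := vf_2 _ _ _
  have e20 : th K 2 (X 0) = pP K * pT K := vf_0 _ _ _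
  have e21 : th K 2 (X 1) = 0 := vf_1 _ _ _
  have e22 : th K 2 (X 2) = 0 := vf_2 _ _ _
  have e30 : th K 3 (X 0) = 0 := vf_0 _ _ _
  have e31 : th K 3 (X 1) = pR K * pT K := vf_1 _ _ _
  have e32 : th K 3 (X 2) = 0 := vf_2 _ _ _
  fin_cases i
  · change (-1 : S3 K) ^ 1 * (th K 1 (X 0) * th K 2 (X 1) * th K 3 (X 2) -
      th K 1 (X 0) * th K 2 (X 2) * th K 3 (X 1) - th K 1 (X 1) * th K 2 (X 0) * th K 3 (X 2) +
      th K 1 (X 1) * th K 2 (X 2) * th K 3 (X 0) + th K 1 (X 2) * th K 2 (X 0) * th K 3 (X 1) -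
      th K 1 (X 2) * th K 2 (X 1) * th K 3 (X 0)) =
      - (X 2 ^ 3 * pT K) * (X 2 * pP K * pR K * pT K)
    rw [e10, e11, e12, e20, e21, e22, e30, e31, e32]
    ring
  · change (-1 : S3 K) ^ 2 * (th K 0 (X 0) * th K 2 (X 1) * th K 3 (X 2) -
      th K 0 (X 0) * th K 2 (X 2) * th K 3 (X 1) - th K 0 (X 1) * th K 2 (X 0) * th K 3 (X 2) +
      th K 0 (X 1) * th K 2 (X 2) * th K 3 (X 0) + th K 0 (X 2) * th K 2 (X 0) * th K 3 (X 1) -
      th K 0 (X 2) * th K 2 (X 1) * th K 3 (X 0)) =
      pT K * (X 2 * pP K * pR K * pT K)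
    rw [e00, e01, e02, e20, e21, e22, e30, e31, e32]
    ring
  · change (-1 : S3 K) ^ 3 * (th K 0 (X 0) * th K 1 (X 1) * th K 3 (X 2) -
      th K 0 (X 0) * th K 1 (X 2) * th K 3 (X 1) - th K 0 (X 1) * th K 1 (X 0) * th K 3 (X 2) +
      th K 0 (X 1) * th K 1 (X 2) * th K 3 (X 0) + th K 0 (X 2) * th K 1 (X 0) * th K 3 (X 1) -
      th K 0 (X 2) * th K 1 (X 1) * th K 3 (X 0)) =
      (- pR K) * (X 2 * pP K * pR K * pT K)
    rw [e00, e01, e02, e10, e11, e12, e30, e31, e32]
    ring
  · change (-1 : S3 K) ^ 4 * (th K 0 (X 0) * th K 1 (X 1) * th K 2 (X 2) -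
      th K 0 (X 0) * th K 1 (X 2) * th K 2 (X 1) - th K 0 (X 1) * th K 1 (X 0) * th K 2 (X 2) +
      th K 0 (X 1) * th K 1 (X 2) * th K 2 (X 0) + th K 0 (X 2) * th K 1 (X 0) * th K 2 (X 1) -
      th K 0 (X 2) * th K 1 (X 1) * th K 2 (X 0)) =
      (- pP K) * (X 2 * pP K * pR K * pT K)
    rw [e00, e01, e02, e10, e11, e12, e20, e21, e22]
    ring

/-- the substitution `x = 0` -/
noncomputable def psi (K : Type) [Field K] : S3 K →ₐ[K] S3 K := aeval ![0, X 1, X 2]

lemma constantCoeff_psi (h : S3 K) : constantCoeff (psi K h) = constantCoeff h := by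
  have h1 : (constantCoeff (R := K) (σ := Fin 3)).comp (psi K : S3 K →ₐ[K] S3 K).toRingHom =
      constantCoeff := by
    apply MvPolynomial.ringHom_ext
    · intro c
      simp [psi]
    · intro i
      fin_cases i <;> simp [psi]
  exact congrArg (fun f => f h) h1

lemma no_common7 : ¬ CommonDivisorMod (fun i : Fin 3 => gg K i.castSucc) (gg K (Fin.last 3)) := by
  rintro ⟨h, ⟨e, he, hh⟩, hmem⟩
  have hc : constantCoeff h = 0 := by
    rw [constantCoeff_eq]
    by_contra hne
    have h6 := hh hne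
    simp at h6
    omega
  have hP : psi K (- pP K) = 0 := by simp [psi, pP]
  have key : ∀ a : S3 K, a ∈ Ideal.span {h, - pP K} → psi K h ∣ psi K a := by
    intro a ha
    rw [Ideal.mem_span_pair] at ha
    obtain ⟨u, v, rfl⟩ := ha
    rw [map_add, map_mul, map_mul, hP, mul_zero, add_zero]
    exact dvd_mul_left _ _
  have hT : psi K h ∣ psi K (pT K) := key _ (hmem 1)
  have hR : psi K h ∣ psi K (- pR K) := key _ (hmem 2)
  have eT : psi K (pT K) = X 1 ^ 2 - 4 * X 2 ^ 2 := by
    simp only [psi, pT, map_mul, map_sub, map_add, aeval_X, map_ofNat]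
    change ((0 : S3 K) - X 1 - 2 * X 2) * (0 - X 1 + 2 * X 2) = _
    ring
  have eR : psi K (- pR K) = - (X 1 ^ 2 - X 1 * X 2) := by
    simp only [psi, pR, map_mul, map_sub, map_neg, aeval_X]
    change - ((X 1 : S3 K) * (X 1 - X 2)) = _
    ring
  rw [eT] at hT
  rw [eR] at hR
  have u12 : IsUnit (12 : S3 K) := by
    have : (12 : S3 K) = C (12 : K) := (map_ofNat _ _).symm
    rw [this]
    exact (IsUnit.mk0 _ (by norm_num)).map C
  have u3 : IsUnit (3 : S3 K) := by
    have : (3 : S3 K) = C (3 : K) := (map_ofNat _ _).symm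
    rw [this]
    exact (IsUnit.mk0 _ (by norm_num)).map C
  have hz : psi K h ∣ (X 2 : S3 K) ^ 3 := by
    rw [← u12.dvd_mul_left]
    have h1 : (12 : S3 K) * X 2 ^ 3 = (- X 1 - 3 * X 2) * (X 1 ^ 2 - 4 * X 2 ^ 2) +
        (- X 1 - 4 * X 2) * (- (X 1 ^ 2 - X 1 * X 2)) := by ring
    rw [h1]
    exact dvd_add (hT.mul_left _) (hR.mul_left _)
  have hy : psi K h ∣ (X 1 : S3 K) ^ 3 := by
    rw [← u3.dvd_mul_left]
    have h1 : (3 : S3 K) * X 1 ^ 3 = (- X 1) * (X 1 ^ 2 - 4 * X 2 ^ 2) +
        (- (4 * X 1) - 4 * X 2) * (- (X 1 ^ 2 - X 1 * X 2)) := by ring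
    rw [h1]
    exact dvd_add (hT.mul_left _) (hR.mul_left _)
  obtain ⟨i, hi, hassoc⟩ := (dvd_prime_pow prime_z 3).1 hz
  rcases Nat.eq_zero_or_pos i with h0 | h0
  · rw [h0, pow_zero, associated_one_iff_isUnit] at hassoc
    have h1 := hassoc.map (constantCoeff (R := K) (σ := Fin 3))
    rw [constantCoeff_psi, hc] at h1
    exact not_isUnit_zero h1
  · have h1 : (X 2 : S3 K) ∣ psi K h := (dvd_pow_self _ h0.ne').trans hassoc.symm.dvd
    have h2 : (X 2 : S3 K) ∣ X 1 := prime_z.dvd_of_dvd_pow (h1.trans hy)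
    rw [X_dvd_X] at h2
    exact absurd h2 (by decide)

lemma pd7 : pd (A7 K) = 1 := by
  unfold pd
  apply le_antisymm
  · have h : HasProjectiveDimensionLE
        (ModuleCat.of (MvPolynomial (Fin 3) K) (logDer (A7 K))) 1 := pdLT_two
    exact (projectiveDimension_le_iff _ 1).2 h
  · exact (projectiveDimension_ge_iff _ 1).2 not_pdLT_one

lemma hypotheses : HypothesesH (A7 K) (th K) (gg K) where
  mem := th_mem
  homogeneous := th_hom
  minors := minors_ok
  last_ne_zero := neg_ne_zero.2 pP_ne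
  pos := by
    intro i
    fin_cases i
    · refine ⟨neg_ne_zero.2 (mul_ne_zero (pow_ne_zero 3 (X_ne_zero 2)) pT_ne), 5, by omega, ?_⟩
      have := ((hom_X (K := K) 2).pow 3).mul (pT_hom (K := K))
      exact this.neg
    · exact ⟨pT_ne, 2, by omega, pT_hom⟩
    · exact ⟨neg_ne_zero.2 pR_ne, 2, by omega, pR_hom.neg⟩
  no_common := no_common7
  pd_eq := pd7

end

/-- Over every field of characteristic zero there is an arrangement of seven planes in `K^3` with
derivations `θ_1, …, θ_4` satisfying the hypotheses (H), for which `D(A)` has no graded minimal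
free resolution of the shape in question. -/
theorem result : ∀ (K : Type) [Field K] [CharZero K], ∃ (A : Fin 7 → Fin 3 → K)
    (θ : Fin 4 → Derivation K (MvPolynomial (Fin 3) K) (MvPolynomial (Fin 3) K))
    (g : Fin 4 → MvPolynomial (Fin 3) K), IsArrangement A ∧ HypothesesH A θ g ∧
      ¬ ∃ q d φ r, IsShapeResolution A q d φ r := by
  intro K _ _
  refine ⟨A7 K, th K, gg K, isArrangement, hypotheses, ?_⟩
  rintro ⟨q, d, φ, r, h⟩
  exact no_shape q d φ r h

end Pool.Agent.Results.MP_ac8f1a_ag.QuadraticSyzygy
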